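import Pool.Agent.Lib.MP_b0105e_co_h74.Crit

/-!
Explicit two-sided bounds for the entries near the diagonal, uniform in the order.
-/

namespace B0105e

open Matrix Finset

/-- the product of `(a+1)(k+1) + t` over `t = 1, ..., d` -/
noncomputable def G (a d k : ℕ) : ℝ :=
  ∏ t ∈ Finset.range d, (((a : ℝ) + 1) * ((k : ℝ) + 1) + t + 1)

/-- the product of `(a+1)(k+1) + t` over `t = 0, ..., d-1` -/
noncomputable def Hp (a d k : ℕ) : ℝ :=
  ∏ t ∈ Finset.range d, (((a : ℝ) + 1) * ((k : ℝ) + 1) + t)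

lemma G_pos (a d k : ℕ) : 0 < G a d k := by
  unfold G
  apply Finset.prod_pos
  intro t _
  positivity

lemma G_succ (a d k : ℕ) : G a (d + 1) k = G a d k * (((a : ℝ) + 1) * ((k : ℝ) + 1) + d + 1) := by
  unfold G
  rw [Finset.prod_range_succ]

lemma Hp_succ (a d k : ℕ) : Hp a (d + 1) k = Hp a d k * (((a : ℝ) + 1) * ((k : ℝ) + 1) + d) := by
  unfold Hp
  rw [Finset.prod_range_succ]

lemma Hp_eq (a d k : ℕ) : Hp a (d + 1) k = (((a : ℝ) + 1) * ((k : ℝ) + 1)) * G a d k := by
  unfold Hp G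
  rw [Finset.prod_range_succ', mul_comm]
  congr 1
  · push_cast
    ring
  · apply Finset.prod_congr rfl
    intro t _
    push_cast
    ring

lemma al_G (a k : ℕ) : ∀ d : ℕ, al a (k + d) k * G a d k = al a k k * Hp a d (k + 1) := by
  intro d
  induction d with
  | zero => simp [G, Hp]
  | succ d ih =>
    rw [G_succ, Hp_succ]
    have h := al_succ a (k + d) k
    have e1 : ((k + d : ℕ) : ℝ) + 2 + a * (k + 1) = ((a : ℝ) + 1) * ((k : ℝ) + 1) + d + 1 := by
      push_cast; ring
    have e2 : ((k + d : ℕ) : ℝ) + 2 + a * (k + 2) =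
        ((a : ℝ) + 1) * (((k + 1 : ℕ) : ℝ) + 1) + d := by
      push_cast; ring
    rw [e1, e2] at h
    have e3 : k + (d + 1) = k + d + 1 := by ring
    rw [e3]
    calc al a (k + d + 1) k * (G a d k * (((a : ℝ) + 1) * ((k : ℝ) + 1) + d + 1))
        = (al a (k + d + 1) k * (((a : ℝ) + 1) * ((k : ℝ) + 1) + d + 1)) * G a d k := by ring
      _ = (al a (k + d) k * G a d k) * (((a : ℝ) + 1) * (((k + 1 : ℕ) : ℝ) + 1) + d) := by
          rw [h]; ring
      _ = _ := by rw [ih]; ring

lemma choose_low (r : ℝ) (hr : 0 ≤ r) (k d : ℕ) :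
    ((k + 2).choose (d + 1) : ℝ) * (r * ((k : ℝ) + 2) + (d + 1)) ≤
      ((k + 1).choose (d + 1) : ℝ) * (r * ((k : ℝ) + 2)) +
        (r + 1) * ((k : ℝ) + 2) * ((k + 2).choose d : ℝ) := by
  have h1 : ((k + 2).choose (d + 1) : ℝ) = ((k + 1).choose d : ℝ) + ((k + 1).choose (d + 1) : ℝ) := by
    have : (k + 2).choose (d + 1) = (k + 1).choose d + (k + 1).choose (d + 1) :=
      Nat.choose_succ_succ _ _
    exact_mod_cast this
  have h2 : ((k : ℝ) + 2) * ((k + 1).choose d : ℝ) = ((k + 2).choose (d + 1) : ℝ) * ((d : ℝ) + 1) := by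
    have h0 := Nat.add_one_mul_choose_eq (k + 1) d
    have h : (((k + 1 + 1 : ℕ)) : ℝ) * ((k + 1).choose d : ℝ) =
        (((k + 1 + 1).choose (d + 1) : ℕ) : ℝ) * ((d + 1 : ℕ) : ℝ) := by exact_mod_cast h0
    have e : ((k + 1 + 1 : ℕ) : ℝ) = (k : ℝ) + 2 := by push_cast; ring
    rw [e] at h
    rw [h]
    push_cast
    ring
  have h3 : ((k + 1).choose d : ℝ) ≤ ((k + 2).choose d : ℝ) := by
    exact_mod_cast Nat.choose_le_choose d (by omega : k + 1 ≤ k + 2)
  have h4 : ((k + 2).choose (d + 1) : ℝ) * (r * ((k : ℝ) + 2) + (d + 1)) =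
      r * ((k : ℝ) + 2) * (((k + 1).choose d : ℝ) + ((k + 1).choose (d + 1) : ℝ)) +
      ((k : ℝ) + 2) * ((k + 1).choose d : ℝ) := by
    rw [h2, ← h1]; ring
  rw [h4]
  have h5 : (r + 1) * ((k : ℝ) + 2) * ((k + 1).choose d : ℝ) ≤
      (r + 1) * ((k : ℝ) + 2) * ((k + 2).choose d : ℝ) :=
    mul_le_mul_of_nonneg_left h3 (by positivity)
  linarith

lemma choose_up (r : ℝ) (k d : ℕ) :
    ((k + d + 1).choose (d + 1) : ℝ) * (r * ((k : ℝ) + 2)) +
        (r + 1) * ((k : ℝ) + 2) * ((k + d + 1).choose d : ℝ) ≤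
      ((k + d + 2).choose (d + 1) : ℝ) * (r * ((k : ℝ) + 2) + (d + 1)) := by
  have h1 : ((k + d + 2).choose (d + 1) : ℝ) =
      ((k + d + 1).choose d : ℝ) + ((k + d + 1).choose (d + 1) : ℝ) := by
    have : (k + d + 2).choose (d + 1) = (k + d + 1).choose d + (k + d + 1).choose (d + 1) :=
      Nat.choose_succ_succ _ _
    exact_mod_cast this
  have h2 : ((k : ℝ) + d + 2) * ((k + d + 1).choose d : ℝ) =
      ((k + d + 2).choose (d + 1) : ℝ) * ((d : ℝ) + 1) := by
    have h0 := Nat.add_one_mul_choose_eq (k + d + 1) d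
    have h : (((k + d + 1 + 1 : ℕ)) : ℝ) * ((k + d + 1).choose d : ℝ) =
        (((k + d + 1 + 1).choose (d + 1) : ℕ) : ℝ) * ((d + 1 : ℕ) : ℝ) := by exact_mod_cast h0
    have e : ((k + d + 1 + 1 : ℕ) : ℝ) = (k : ℝ) + d + 2 := by push_cast; ring
    rw [e] at h
    rw [h]
    push_cast
    ring
  have h4 : ((k + d + 2).choose (d + 1) : ℝ) * (r * ((k : ℝ) + 2) + (d + 1)) =
      r * ((k : ℝ) + 2) * (((k + d + 1).choose d : ℝ) + ((k + d + 1).choose (d + 1) : ℝ)) +
      ((k : ℝ) + d + 2) * ((k + d + 1).choose d : ℝ) := by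
    rw [h2, ← h1]; ring
  rw [h4]
  have h5 : (0 : ℝ) ≤ (d : ℝ) * ((k + d + 1).choose d : ℝ) := by positivity
  nlinarith

theorem M_near_lower (a : ℕ) : ∀ k d : ℕ,
    ((k + 1).choose d : ℝ) * G a d k * M a k k ≤ ((a : ℝ) + 2) ^ d * M a (k + d) k := by
  intro k
  induction k with
  | zero =>
    intro d
    rw [M_zero, M_zero, mul_one, mul_one]
    rcases d with _ | _ | d
    · simp [G]
    · simp [G]
      linarith
    · have : (0 + 1).choose (d + 1 + 1) = 0 := Nat.choose_eq_zero_of_lt (by omega)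
      rw [this]
      simp
      positivity
  | succ k ihk =>
    intro d
    induction d with
    | zero => simp [G]
    | succ d ihd =>
      have e1 : k + 1 + (d + 1) = k + (d + 1) + 1 := by ring
      have e2 : k + (d + 1) = k + 1 + d := by ring
      have hM : M a (k + 1 + (d + 1)) (k + 1) = al a (k + (d + 1)) k * M a (k + (d + 1)) k +
          ((k : ℝ) + 2) * M a (k + 1 + d) (k + 1) := by
        rw [e1, M_succ, e2]
      have h1 := ihk (d + 1)
      have hal := al_G a k (d + 1)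
      have hD := M_diag_succ a k
      have hM0 : 0 ≤ M a (k + 1) (k + 1) := (M_pos a _ _ le_rfl).le
      have hG0 := (G_pos a d (k + 1)).le
      -- first part
      have p1 : ((k + 1).choose (d + 1) : ℝ) * Hp a (d + 1) (k + 1) * M a (k + 1) (k + 1) ≤
          ((a : ℝ) + 2) ^ (d + 1) * (al a (k + (d + 1)) k * M a (k + (d + 1)) k) := by
        have h2 := mul_le_mul_of_nonneg_left h1 (al_pos a (k + (d + 1)) k).le
        calc ((k + 1).choose (d + 1) : ℝ) * Hp a (d + 1) (k + 1) * M a (k + 1) (k + 1)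
            = ((k + 1).choose (d + 1) : ℝ) * (al a k k * Hp a (d + 1) (k + 1)) * M a k k := by
              rw [hD]; ring
          _ = al a (k + (d + 1)) k *
              (((k + 1).choose (d + 1) : ℝ) * G a (d + 1) k * M a k k) := by
              rw [← hal]; ring
          _ ≤ _ := h2
          _ = _ := by ring
      have p2 : ((k + 2).choose d : ℝ) * G a d (k + 1) * M a (k + 1) (k + 1) *
          (((a : ℝ) + 2) * ((k : ℝ) + 2)) ≤
          ((a : ℝ) + 2) ^ (d + 1) * (((k : ℝ) + 2) * M a (k + 1 + d) (k + 1)) := by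
        have h2 := mul_le_mul_of_nonneg_right ihd
          (by positivity : (0 : ℝ) ≤ ((a : ℝ) + 2) * ((k : ℝ) + 2))
        calc ((k + 2).choose d : ℝ) * G a d (k + 1) * M a (k + 1) (k + 1) *
            (((a : ℝ) + 2) * ((k : ℝ) + 2)) ≤ _ := h2
          _ = _ := by rw [pow_succ]; ring
      have h3 := choose_low ((a : ℝ) + 1) (by positivity) k d
      have h4 := mul_le_mul_of_nonneg_left h3 (mul_nonneg hG0 hM0)
      rw [hM, G_succ]
      have eH := Hp_eq a d (k + 1)
      rw [eH] at p1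
      push_cast at p1 p2 h4 ⊢
      have e5 : (k : ℝ) + 1 + 1 = (k : ℝ) + 2 := by ring
      rw [e5] at *
      have e6 : k + 1 + 1 = k + 2 := by ring
      rw [e6] at *
      nlinarith [p1, p2, h4]

theorem M_near_upper (a : ℕ) : ∀ k d : ℕ,
    ((a : ℝ) + 2) ^ d * M a (k + d) k ≤ ((k + d).choose d : ℝ) * G a d k * M a k k := by
  intro k
  induction k with
  | zero =>
    intro d
    rw [M_zero, M_zero, mul_one, mul_one]
    have h : (0 + d).choose d = 1 := by simp
    rw [h]
    unfold G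
    have h1 : ((a : ℝ) + 2) ^ d = ∏ t ∈ Finset.range d, ((a : ℝ) + 2) := by
      simp
    rw [h1]
    simp only [Nat.cast_one, one_mul]
    apply Finset.prod_le_prod
    · intro t _
      positivity
    · intro t _
      have : (0 : ℝ) ≤ (t : ℝ) := by positivity
      push_cast
      linarith
  | succ k ihk =>
    intro d
    induction d with
    | zero => simp [G]
    | succ d ihd =>
      have e1 : k + 1 + (d + 1) = k + (d + 1) + 1 := by ring
      have e2 : k + (d + 1) = k + 1 + d := by ring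
      have hM : M a (k + 1 + (d + 1)) (k + 1) = al a (k + (d + 1)) k * M a (k + (d + 1)) k +
          ((k : ℝ) + 2) * M a (k + 1 + d) (k + 1) := by
        rw [e1, M_succ, e2]
      have h1 := ihk (d + 1)
      have hal := al_G a k (d + 1)
      have hD := M_diag_succ a k
      have hM0 : 0 ≤ M a (k + 1) (k + 1) := (M_pos a _ _ le_rfl).le
      have hG0 := (G_pos a d (k + 1)).le
      have p1 : ((a : ℝ) + 2) ^ (d + 1) * (al a (k + (d + 1)) k * M a (k + (d + 1)) k) ≤
          ((k + (d + 1)).choose (d + 1) : ℝ) * Hp a (d + 1) (k + 1) * M a (k + 1) (k + 1) := by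
        have h2 := mul_le_mul_of_nonneg_left h1 (al_pos a (k + (d + 1)) k).le
        calc ((a : ℝ) + 2) ^ (d + 1) * (al a (k + (d + 1)) k * M a (k + (d + 1)) k)
            = al a (k + (d + 1)) k * (((a : ℝ) + 2) ^ (d + 1) * M a (k + (d + 1)) k) := by ring
          _ ≤ _ := h2
          _ = ((k + (d + 1)).choose (d + 1) : ℝ) *
              (al a (k + (d + 1)) k * G a (d + 1) k) * M a k k := by ring
          _ = _ := by rw [hal, hD]; ring
      have p2 : ((a : ℝ) + 2) ^ (d + 1) * (((k : ℝ) + 2) * M a (k + 1 + d) (k + 1)) ≤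
          ((k + 1 + d).choose d : ℝ) * G a d (k + 1) * M a (k + 1) (k + 1) *
          (((a : ℝ) + 2) * ((k : ℝ) + 2)) := by
        have h2 := mul_le_mul_of_nonneg_right ihd
          (by positivity : (0 : ℝ) ≤ ((a : ℝ) + 2) * ((k : ℝ) + 2))
        calc ((a : ℝ) + 2) ^ (d + 1) * (((k : ℝ) + 2) * M a (k + 1 + d) (k + 1))
            = ((a : ℝ) + 2) ^ d * M a (k + 1 + d) (k + 1) *
              (((a : ℝ) + 2) * ((k : ℝ) + 2)) := by rw [pow_succ]; ring
          _ ≤ _ := h2
      have h3 := choose_up ((a : ℝ) + 1) k d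
      have h4 := mul_le_mul_of_nonneg_left h3 (mul_nonneg hG0 hM0)
      rw [hM, G_succ]
      have eH := Hp_eq a d (k + 1)
      rw [eH] at p1
      have f1 : k + (d + 1) = k + d + 1 := by ring
      have f2 : k + 1 + d = k + d + 1 := by ring
      have f3 : k + 1 + (d + 1) = k + d + 2 := by ring
      rw [f1] at p1 ⊢
      rw [f2] at p2 ⊢
      rw [f3]
      push_cast at p1 p2 h4 ⊢
      have e5 : (k : ℝ) + 1 + 1 = (k : ℝ) + 2 := by ring
      rw [e5] at *
      nlinarith [p1, p2, h4]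

end B0105e
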