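import Pool.Agent.Lib.MP_b0105e_co_h10.Main

/-!
A version of the criterion for finitely many rows, and the minors of the Pascal triangle.
-/

namespace B0105e

open Matrix Finset

/-- the block lemma with a bound for the rows -/
lemma block_fin {f : ℕ → ℕ → ℝ} {m N : ℕ} (h00 : 0 ≤ f 0 0) (hrow : ∀ k, f 0 (k + 1) = 0)
    (hcol : ∀ n, f (n + 1) 0 = 0)
    (h : ∀ (p : ℕ) (r c : Fin p → ℕ), StrictMono r → StrictMono c → (∀ i, c i < m) →
      (∀ i, r i < N) → 0 ≤ mnr (fun n k => f (n + 1) (k + 1)) r c)
    (p : ℕ) (r c : Fin p → ℕ) (hr : StrictMono r) (hc : StrictMono c) (hm : ∀ i, c i < m + 1)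
    (hN : ∀ i, r i < N + 1) :
    0 ≤ mnr f r c := by
  have shift : ∀ (q : ℕ) (r c : Fin q → ℕ), StrictMono r → StrictMono c → (∀ i, 1 ≤ r i) →
      (∀ i, 1 ≤ c i) → (∀ i, c i < m + 1) → (∀ i, r i < N + 1) → 0 ≤ mnr f r c := by
    intro q r c hr hc h1 h2 hm hN
    have hh := h q (fun i => r i - 1) (fun i => c i - 1) (strictMono_pred hr h1)
      (strictMono_pred hc h2) (fun i => by have := hm i; have := h2 i; omega)
      (fun i => by have := hN i; have := h1 i; omega)
    have e : mnr (fun n k => f (n + 1) (k + 1)) (fun i => r i - 1) (fun i => c i - 1)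
        = mnr f r c := by
      unfold mnr
      have : (Matrix.of fun i j => (fun n k => f (n + 1) (k + 1)) ((fun i => r i - 1) i)
          ((fun i => c i - 1) j)) = (Matrix.of fun i j => f (r i) (c j)) := by
        ext i j
        have a1 : r i - 1 + 1 = r i := by have := h1 i; omega
        have a2 : c j - 1 + 1 = c j := by have := h2 j; omega
        simp only [Matrix.of_apply, a1, a2]
      rw [this]
    rw [e] at hh
    exact hh
  cases p with
  | zero => rw [mnr_zero]; exact zero_le_one
  | succ p =>
    by_cases hr0 : r 0 = 0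
    · by_cases hc0 : c 0 = 0
      · rw [mnr_col_zero]
        · apply mul_nonneg
          · rw [hr0, hc0]; exact h00
          · apply shift
            · intro i j hij; exact hr (Fin.succ_lt_succ_iff.mpr hij)
            · intro i j hij; exact hc (Fin.succ_lt_succ_iff.mpr hij)
            · exact one_le_succ hr
            · exact one_le_succ hc
            · intro i; exact hm _
            · intro i; exact hN _
        · intro i
          have h1 := one_le_succ hr i
          obtain ⟨n, hn⟩ : ∃ n, r i.succ = n + 1 := ⟨r i.succ - 1, by omega⟩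
          rw [hn, hc0]
          exact hcol n
      · rw [mnr_row_eq_zero 0]
        intro j
        have h1 := one_le_of_ne hc hc0 j
        obtain ⟨n, hn⟩ : ∃ n, c j = n + 1 := ⟨c j - 1, by omega⟩
        rw [hr0, hn]
        exact hrow n
    · by_cases hc0 : c 0 = 0
      · rw [mnr_col_eq_zero 0]
        intro i
        have h1 := one_le_of_ne hr hr0 i
        obtain ⟨n, hn⟩ : ∃ n, r i = n + 1 := ⟨r i - 1, by omega⟩
        rw [hn, hc0]
        exact hcol n
      · exact shift _ r c hr hc (one_le_of_ne hr hr0) (one_le_of_ne hc hc0) hm hN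

/-- criterion for finitely many rows: positive consecutive minors in the first columns and the
first `N` rows imply that all minors there are nonnegative -/
theorem tp_crit_fin (m : ℕ) : ∀ (N : ℕ) (f : ℕ → ℕ → ℝ), (∀ n k, n < k → f n k = 0) →
    (∀ n j, j ≤ m → n + j ≤ N → 0 < mnr f (fun i : Fin j => n + i) (fun i : Fin j => (i : ℕ))) →
    ∀ (p : ℕ) (r c : Fin p → ℕ), StrictMono r → StrictMono c → (∀ i, c i < m) →
      (∀ i, r i < N) → 0 ≤ mnr f r c := by
  induction m with
  | zero =>
    intro N f _ _ p r c _ _ hm _
    cases p with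
    | zero => rw [mnr_zero]; exact zero_le_one
    | succ p => exact absurd (hm 0) (by omega)
  | succ m ih =>
    intro N f₀ hlow₀ hD₀ p r c hr hc hm hN
    cases N with
    | zero =>
      cases p with
      | zero => rw [mnr_zero]; exact zero_le_one
      | succ p => exact absurd (hN 0) (by omega)
    | succ N =>
    -- replace the matrix by one whose rows are constant from row `N` on
    set f : ℕ → ℕ → ℝ := fun n k => f₀ (min n N) k with hf
    have hmin : ∀ n, n < N + 1 → ∀ k, f n k = f₀ n k := by
      intro n hn k
      simp only [hf]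
      rw [Nat.min_eq_left (by omega)]
    have hlow : ∀ n k, n < k → f n k = 0 := by
      intro n k hnk
      simp only [hf]
      exact hlow₀ _ _ (lt_of_le_of_lt (Nat.min_le_left _ _) hnk)
    have hD : ∀ n j, j ≤ m + 1 → n + j ≤ N + 1 →
        0 < mnr f (fun i : Fin j => n + i) (fun i : Fin j => (i : ℕ)) := by
      intro n j hj hn
      have h1 := hD₀ n j hj hn
      refine lt_of_lt_of_eq h1 ?_
      apply mnr_congr
      intro i k
      have := i.2
      exact (hmin _ (by omega) _).symm
    have hpos : ∀ n, 0 < f n 0 := by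
      intro n
      have h1 := hD₀ (min n N) 1 (by omega) (by have := Nat.min_le_right n N; omega)
      simpa [mnr, hf] using h1
    have hne : ∀ n, f n 0 ≠ 0 := fun n => (hpos n).ne'
    have e0 : mnr f₀ r c = mnr f r c := by
      apply mnr_congr
      intro i j
      exact (hmin _ (hN i) _).symm
    rw [e0]
    have hg : ∀ (p : ℕ) (r c : Fin p → ℕ), StrictMono r → StrictMono c → (∀ i, c i < m + 1) →
        (∀ i, r i < N + 1) → 0 ≤ mnr (nev f) r c := by
      apply block_fin
      · exact (hpos 0).le
      · intro k
        simp only [nev]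
        exact hlow 0 (k + 1) (by omega)
      · exact nev_col f hne
      · apply ih
        · intro n k hnk
          simp only [nev]
          rw [hlow (n + 1) (k + 1) (by omega), hlow n (k + 1) (by omega)]
          ring
        · intro n j hj hnj
          have h1 := hD n (j + 1) (by omega) (by omega)
          rw [nev_det f hne _ (by simp) n] at h1
          have h2 := pos_of_mul_pos_right h1 (hpos n).le
          refine lt_of_lt_of_eq h2 ?_
          unfold mnr
          have h3 : (Matrix.of fun (i k : Fin j) => nev f ((fun i : Fin j => n + 1 + (i : ℕ)) i)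
              ((fun k : Fin j => ((k.succ : Fin (j + 1)) : ℕ)) k)) =
              (Matrix.of fun (i k : Fin j) => (fun n k => nev f (n + 1) (k + 1))
              ((fun i : Fin j => n + (i : ℕ)) i) ((fun i : Fin j => (i : ℕ)) k)) := by
            ext i k
            simp only [Matrix.of_apply, Fin.val_succ]
            have h4 : n + 1 + (i : ℕ) = n + (i : ℕ) + 1 := by ring
            rw [h4]
          rw [h3]
    refine le_trans (hg p r c hr hc hm hN) ?_
    apply mnr_rowop (N := N) (fun n => f (n + 1) 0 / f n 0)
    · intro n; exact (div_pos (hpos _) (hpos _)).le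
    · intro k; rfl
    · intro n k
      simp only [nev]
      ring
    · intro r hr hN
      exact hg p r c hr hc hm (fun i => by have := hN i; omega)
    · exact hr
    · intro i
      have := hN i
      omega

/-! ### the minors of the Pascal triangle -/

/-- Pascal's triangle with real entries -/
noncomputable def Pas (n k : ℕ) : ℝ := (n.choose k : ℝ)

lemma mnr_pas (j : ℕ) : ∀ n : ℕ,
    mnr Pas (fun i : Fin j => n + (i : ℕ)) (fun i : Fin j => (i : ℕ)) = 1 := by
  induction j with
  | zero => intro n; exact mnr_zero _ _ _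
  | succ j ih =>
    intro n
    have hne : ∀ n, Pas n 0 ≠ 0 := by
      intro n
      simp [Pas]
    rw [nev_det Pas hne _ (by simp) n]
    have h0 : Pas n 0 = 1 := by simp [Pas]
    rw [h0, one_mul, ← ih n]
    apply mnr_congr
    intro i k
    have h4 : n + 1 + (i : ℕ) = n + (i : ℕ) + 1 := by ring
    simp only [Fin.val_succ, h4, nev, Pas]
    rw [Nat.choose_succ_succ]
    simp

/-- the limit matrix, with entry `1 / (n - k)!` for `k ≤ n` and `0` otherwise -/
noncomputable def Lm (n k : ℕ) : ℝ := ((n.factorial : ℝ))⁻¹ * ((k.factorial : ℝ) * Pas n k)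

lemma mnr_Lm_pos (n j : ℕ) :
    0 < mnr Lm (fun i : Fin j => n + (i : ℕ)) (fun i : Fin j => (i : ℕ)) := by
  have h := mnr_scale Pas (fun n => ((n.factorial : ℝ))⁻¹) (fun k => (k.factorial : ℝ))
    (fun i : Fin j => n + (i : ℕ)) (fun i : Fin j => (i : ℕ))
  have h1 : mnr Lm (fun i : Fin j => n + (i : ℕ)) (fun i : Fin j => (i : ℕ)) =
      mnr (fun n k => (fun n : ℕ => ((n.factorial : ℝ))⁻¹) n *
        ((fun k : ℕ => (k.factorial : ℝ)) k * Pas n k))
      (fun i : Fin j => n + (i : ℕ)) (fun i : Fin j => (i : ℕ)) := rfl
  rw [h1, h, mnr_pas]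
  apply mul_pos
  · exact prod_pos_fin (fun n => ((n.factorial : ℝ))⁻¹) (fun n => by positivity) _
  · rw [mul_one]
    exact prod_pos_fin (fun k => (k.factorial : ℝ)) (fun k => by positivity) _

lemma Lm_low (n k : ℕ) (h : n < k) : Lm n k = 0 := by
  simp [Lm, Pas, Nat.choose_eq_zero_of_lt h]

lemma Lm_eq (k d : ℕ) : Lm (k + d) k = ((d.factorial : ℝ))⁻¹ := by
  unfold Lm Pas
  have h := Nat.add_choose_mul_factorial_mul_factorial k d
  rw [← Nat.choose_symm_add] at h
  have h' : ((k + d).choose k : ℝ) * (k.factorial : ℝ) * (d.factorial : ℝ) =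
      ((k + d).factorial : ℝ) := by exact_mod_cast h
  have h1 : ((k + d).factorial : ℝ) ≠ 0 := by positivity
  have h2 : (d.factorial : ℝ) ≠ 0 := by positivity
  field_simp
  linarith

end B0105e
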