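import Pool.Agent.Lib.MP_b0105e_co_h74.Bounds

/-!
The windows of the triangle on the diagonal: their limit, uniformly in the order, and the theorem
on windows.
-/

namespace B0105e

open Matrix Finset Filter Topology

/-- the scaling parameter of the window that starts at `x` -/
noncomputable def zz (a x : ℕ) : ℝ := (((a : ℝ) + 1) * ((x : ℝ) + 1) ^ 2) / ((a : ℝ) + 2)

lemma zz_pos (a x : ℕ) : 0 < zz a x := by
  unfold zz
  positivity

/-- the scaled window -/
noncomputable def Ew (a x n k : ℕ) : ℝ :=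
  ((zz a x)⁻¹ ^ n) * (((zz a x) ^ k / M a (x + k) (x + k)) * M a (x + n) (x + k))

lemma Ew_eq (a x k d : ℕ) : Ew a x (k + d) k =
    (((a : ℝ) + 2) ^ d * M a (x + k + d) (x + k) / M a (x + k) (x + k)) /
      ((((a : ℝ) + 1) * ((x : ℝ) + 1)) ^ d * ((x : ℝ) + 1) ^ d) := by
  unfold Ew
  have h1 := (zz_pos a x).ne'
  have h2 := (M_pos a (x + k) (x + k) le_rfl).ne'
  have h3 : ((a : ℝ) + 1) ≠ 0 := by positivity
  have h4 : ((x : ℝ) + 1) ≠ 0 := by positivity
  have h5 : ((a : ℝ) + 2) ≠ 0 := by positivity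
  have e1 : (zz a x)⁻¹ ^ (k + d) * (zz a x) ^ k = ((zz a x)⁻¹) ^ d := by
    rw [pow_add, inv_pow, inv_pow]
    field_simp
  have e2 : ((zz a x)⁻¹) ^ d = ((a : ℝ) + 2) ^ d /
      ((((a : ℝ) + 1) * ((x : ℝ) + 1)) ^ d * ((x : ℝ) + 1) ^ d) := by
    unfold zz
    rw [inv_div, div_pow, ← mul_pow]
    congr 2
    ring
  have e3 : x + (k + d) = x + k + d := by ring
  rw [e3]
  calc (zz a x)⁻¹ ^ (k + d) * ((zz a x) ^ k / M a (x + k) (x + k) * M a (x + k + d) (x + k))
      = ((zz a x)⁻¹ ^ (k + d) * (zz a x) ^ k) *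
        (M a (x + k + d) (x + k) / M a (x + k) (x + k)) := by ring
    _ = _ := by rw [e1, e2]; ring

lemma Ew_lower (a x k d : ℕ) (hd : d ≤ x) :
    (((x : ℝ) + (2 - (d : ℝ))) / ((x : ℝ) + 1)) ^ d / (d.factorial : ℝ) ≤ Ew a x (k + d) k := by
  rw [Ew_eq]
  have hx : (0 : ℝ) < (x : ℝ) + 1 := by positivity
  have ha : (0 : ℝ) < (a : ℝ) + 1 := by positivity
  have hM := M_pos a (x + k) (x + k) le_rfl
  have h1 := M_near_lower a (x + k) d
  have h2 : ((x + k + 1).choose d : ℝ) * G a d (x + k) ≤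
      ((a : ℝ) + 2) ^ d * M a (x + k + d) (x + k) / M a (x + k) (x + k) := by
    rw [le_div_iff₀ hM]
    exact h1
  have h3 : (((a : ℝ) + 1) * ((x : ℝ) + 1)) ^ d ≤ G a d (x + k) := by
    unfold G
    have e : (((a : ℝ) + 1) * ((x : ℝ) + 1)) ^ d =
        ∏ t ∈ Finset.range d, (((a : ℝ) + 1) * ((x : ℝ) + 1)) := by simp
    rw [e]
    apply Finset.prod_le_prod
    · intro t _; positivity
    · intro t _
      have ht : (0 : ℝ) ≤ (t : ℝ) := by positivity
      have hk : (0 : ℝ) ≤ (k : ℝ) := by positivity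
      push_cast
      nlinarith [mul_nonneg ha.le hk]
  have h4 : ((x : ℝ) + (2 - (d : ℝ))) ^ d / (d.factorial : ℝ) ≤ ((x + k + 1).choose d : ℝ) := by
    have h5 := Nat.pow_le_choose (α := ℝ) d (x + k + 1)
    refine le_trans ?_ h5
    apply div_le_div_of_nonneg_right _ (by positivity)
    have e : ((x + k + 1 + 1 - d : ℕ) : ℝ) = (x : ℝ) + k + 2 - d := by
      rw [Nat.cast_sub (by omega)]
      push_cast
      ring
    rw [e]
    have hdx : (d : ℝ) ≤ x := by exact_mod_cast hd
    apply pow_le_pow_left₀ (by linarith)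
    have hk : (0 : ℝ) ≤ (k : ℝ) := by positivity
    linarith
  have hdx : (d : ℝ) ≤ x := by exact_mod_cast hd
  have hnn : 0 ≤ ((x : ℝ) + (2 - (d : ℝ))) ^ d / (d.factorial : ℝ) := by
    apply div_nonneg (pow_nonneg (by linarith) _) (by positivity)
  rw [le_div_iff₀ (by positivity)]
  refine le_trans ?_ h2
  calc (((x : ℝ) + (2 - (d : ℝ))) / ((x : ℝ) + 1)) ^ d / (d.factorial : ℝ) *
        ((((a : ℝ) + 1) * ((x : ℝ) + 1)) ^ d * ((x : ℝ) + 1) ^ d)
      = (((x : ℝ) + (2 - (d : ℝ))) ^ d / (d.factorial : ℝ)) *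
        (((a : ℝ) + 1) * ((x : ℝ) + 1)) ^ d := by
        rw [div_pow]
        field_simp
    _ ≤ ((x + k + 1).choose d : ℝ) * G a d (x + k) := by
        apply mul_le_mul h4 h3 (by positivity) (by positivity)

lemma Ew_upper (a x k d : ℕ) :
    Ew a x (k + d) k ≤ (((x : ℝ) + ((k : ℝ) + d)) / ((x : ℝ) + 1)) ^ d *
      (((x : ℝ) + ((k : ℝ) + 1 + d)) / ((x : ℝ) + 1)) ^ d / (d.factorial : ℝ) := by
  rw [Ew_eq]
  have hx : (0 : ℝ) < (x : ℝ) + 1 := by positivity
  have ha : (0 : ℝ) < (a : ℝ) + 1 := by positivity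
  have hM := M_pos a (x + k) (x + k) le_rfl
  have h1 := M_near_upper a (x + k) d
  have h2 : ((a : ℝ) + 2) ^ d * M a (x + k + d) (x + k) / M a (x + k) (x + k) ≤
      ((x + k + d).choose d : ℝ) * G a d (x + k) := by
    rw [div_le_iff₀ hM]
    exact h1
  have h3 : G a d (x + k) ≤ (((a : ℝ) + 1) * ((x : ℝ) + ((k : ℝ) + 1 + d))) ^ d := by
    unfold G
    have e : (((a : ℝ) + 1) * ((x : ℝ) + ((k : ℝ) + 1 + d))) ^ d =
        ∏ t ∈ Finset.range d, (((a : ℝ) + 1) * ((x : ℝ) + ((k : ℝ) + 1 + d))) := by simp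
    rw [e]
    apply Finset.prod_le_prod
    · intro t _; positivity
    · intro t ht
      have ht' : (t : ℝ) + 1 ≤ d := by
        have := Finset.mem_range.mp ht
        exact_mod_cast this
      have hd0 : (0 : ℝ) ≤ (d : ℝ) := by positivity
      have ha0 : (0 : ℝ) ≤ (a : ℝ) := by positivity
      push_cast
      nlinarith [mul_nonneg ha0 hd0]
  have h4 : ((x + k + d).choose d : ℝ) ≤
      ((x : ℝ) + ((k : ℝ) + d)) ^ d / (d.factorial : ℝ) := by
    have h5 := Nat.choose_le_pow_div (α := ℝ) d (x + k + d)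
    refine le_trans h5 (le_of_eq ?_)
    push_cast
    ring
  rw [div_le_iff₀ (by positivity)]
  refine le_trans h2 ?_
  calc ((x + k + d).choose d : ℝ) * G a d (x + k)
      ≤ (((x : ℝ) + ((k : ℝ) + d)) ^ d / (d.factorial : ℝ)) *
        (((a : ℝ) + 1) * ((x : ℝ) + ((k : ℝ) + 1 + d))) ^ d := by
        apply mul_le_mul h4 h3 (G_pos _ _ _).le (by positivity)
    _ = _ := by
        rw [div_pow, div_pow, mul_pow, mul_pow]
        field_simp

lemma tendsto_shift_one (c : ℝ) :
    Tendsto (fun x : ℕ => ((x : ℝ) + c) / ((x : ℝ) + 1)) atTop (𝓝 1) := by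
  have h := (tendsto_one_div_add_atTop_nhds_zero_nat (𝕜 := ℝ)).const_mul (c - 1)
  have h1 := h.const_add 1
  rw [mul_zero, add_zero] at h1
  refine h1.congr ?_
  intro x
  have hx : (x : ℝ) + 1 ≠ 0 := by positivity
  field_simp
  ring

lemma tendsto_Ew (n k : ℕ) :
    Tendsto (fun x : ℕ × ℕ => Ew x.1 x.2 n k) FF (𝓝 (Lm n k)) := by
  by_cases hnk : n < k
  · rw [Lm_low n k hnk]
    have : (fun x : ℕ × ℕ => Ew x.1 x.2 n k) = fun _ => 0 := by
      funext x
      unfold Ew
      rw [M_low x.1 (x.2 + n) (x.2 + k) (by omega)]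
      ring
    rw [this]
    exact tendsto_const_nhds
  · obtain ⟨d, rfl⟩ : ∃ d, n = k + d := ⟨n - k, by omega⟩
    rw [Lm_eq]
    have hlow : Tendsto (fun x : ℕ => (((x : ℝ) + (2 - (d : ℝ))) / ((x : ℝ) + 1)) ^ d /
        (d.factorial : ℝ)) atTop (𝓝 ((d.factorial : ℝ))⁻¹) := by
      have h := ((tendsto_shift_one (2 - (d : ℝ))).pow d).div_const (d.factorial : ℝ)
      rw [one_pow, one_div] at h
      exact h
    have hup : Tendsto (fun x : ℕ => (((x : ℝ) + ((k : ℝ) + d)) / ((x : ℝ) + 1)) ^ d *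
        (((x : ℝ) + ((k : ℝ) + 1 + d)) / ((x : ℝ) + 1)) ^ d / (d.factorial : ℝ)) atTop
        (𝓝 ((d.factorial : ℝ))⁻¹) := by
      have h := (((tendsto_shift_one ((k : ℝ) + d)).pow d).mul
        ((tendsto_shift_one ((k : ℝ) + 1 + d)).pow d)).div_const (d.factorial : ℝ)
      rw [one_pow, one_mul, one_div] at h
      exact h
    have hev : ∀ᶠ x : ℕ × ℕ in FF, d ≤ x.2 := tendsto_comap.eventually (eventually_ge_atTop d)
    refine tendsto_of_tendsto_of_tendsto_of_le_of_le' (hlow.comp tendsto_comap)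
      (hup.comp tendsto_comap) ?_ ?_
    · filter_upwards [hev] with x hx
      exact Ew_lower x.1 x.2 k d hx
    · exact Eventually.of_forall (fun x => Ew_upper x.1 x.2 k d)

/-- the window of `M` that starts at `x` -/
noncomputable def Mw (a x n k : ℕ) : ℝ := M a (x + n) (x + k)

lemma eventually_window (n j : ℕ) : ∀ᶠ x : ℕ × ℕ in FF,
    0 < mnr (Mw x.1 x.2) (fun i : Fin j => n + (i : ℕ)) (fun i : Fin j => (i : ℕ)) := by
  have h1 : Tendsto (fun x : ℕ × ℕ => (Matrix.of fun (i k : Fin j) =>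
      Ew x.1 x.2 (n + (i : ℕ)) (k : ℕ)).det) FF
      (𝓝 (Matrix.of fun (i k : Fin j) => Lm (n + (i : ℕ)) (k : ℕ)).det) := by
    apply tendsto_det
    intro i k
    exact tendsto_Ew _ _
  have h2 := mnr_Lm_pos n j
  unfold mnr at h2
  filter_upwards [h1.eventually (lt_mem_nhds h2)] with x hx
  have h3 := mnr_scale (Mw x.1 x.2) (fun n => (zz x.1 x.2)⁻¹ ^ n)
    (fun k => (zz x.1 x.2) ^ k / M x.1 (x.2 + k) (x.2 + k))
    (fun i : Fin j => n + (i : ℕ)) (fun i : Fin j => (i : ℕ))
  have h4 : mnr (fun n k => (fun n => (zz x.1 x.2)⁻¹ ^ n) n *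
      ((fun k => (zz x.1 x.2) ^ k / M x.1 (x.2 + k) (x.2 + k)) k * Mw x.1 x.2 n k))
      (fun i : Fin j => n + (i : ℕ)) (fun i : Fin j => (i : ℕ)) =
      (Matrix.of fun (i k : Fin j) => Ew x.1 x.2 (n + (i : ℕ)) (k : ℕ)).det := rfl
  rw [h4] at h3
  rw [h3] at hx
  have hz := zz_pos x.1 x.2
  have h5 : 0 < ∏ i : Fin j, (fun n : ℕ => (zz x.1 x.2)⁻¹ ^ n) (n + (i : ℕ)) :=
    Finset.prod_pos (fun i _ => pow_pos (inv_pos.mpr hz) _)
  have h6 := pos_of_mul_pos_right hx h5.le
  have h7 : 0 < ∏ k : Fin j, (fun k : ℕ => (zz x.1 x.2) ^ k / M x.1 (x.2 + k) (x.2 + k)) (k : ℕ) :=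
    Finset.prod_pos (fun k _ => div_pos (pow_pos hz _) (M_pos _ _ _ le_rfl))
  exact pos_of_mul_pos_right h6 h7.le

/-- the windows of `N` rows that start far enough are totally positive, for every order -/
theorem window_M (N : ℕ) : ∃ x0 : ℕ, ∀ a x : ℕ, x0 ≤ x → ∀ (p : ℕ) (r c : Fin p → ℕ),
    StrictMono r → StrictMono c → (∀ i, c i < N) → (∀ i, r i < N) →
      0 ≤ mnr (Mw a x) r c := by
  have h1 : ∀ᶠ x : ℕ × ℕ in FF, ∀ (n j : Fin (N + 1)),
      0 < mnr (Mw x.1 x.2) (fun i : Fin (j : ℕ) => (n : ℕ) + (i : ℕ))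
        (fun i : Fin (j : ℕ) => (i : ℕ)) := by
    rw [Filter.eventually_all]
    intro n
    rw [Filter.eventually_all]
    intro j
    exact eventually_window n j
  unfold FF at h1
  rw [Filter.eventually_comap] at h1
  obtain ⟨x0, hx0⟩ := Filter.eventually_atTop.mp h1
  refine ⟨x0, fun a x hx p r c hr hc hcN hrN => ?_⟩
  have h2 := hx0 x hx (a, x) rfl
  apply tp_crit_fin N N (Mw a x) _ _ p r c hr hc hcN hrN
  · intro n k hnk
    exact M_low a (x + n) (x + k) (by omega)
  · intro n j hj hn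
    exact h2 ⟨n, by omega⟩ ⟨j, by omega⟩

lemma S_low (a : ℕ) : ∀ n k : ℕ, n < k → S (a + 1) n k = 0 := by
  intro n
  induction n with
  | zero =>
    intro k hk
    cases k with
    | zero => omega
    | succ k => rfl
  | succ n ih =>
    intro k hk
    cases k with
    | zero => omega
    | succ k =>
      simp only [S]
      rw [ih k (by omega), ih (k + 1) (by omega), mul_zero, mul_zero, add_zero]

/-- Theorem on windows: for every size there are only finitely many pairs of an order `r` and a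
position `K` for which the window is not known to be totally positive. -/
theorem diagonal_windows (m : ℕ) : ∃ C : ℕ, ∀ r K : ℕ, 1 ≤ r → C ≤ r + K →
    ∀ (p : ℕ) (i j : Fin p → ℕ), StrictMono i → StrictMono j → (∀ s, i s ≤ K + m) →
      (∀ s, K ≤ j s) → 0 ≤ minor r i j := by
  obtain ⟨x0, hx0⟩ := window_M (m + 1)
  obtain ⟨r0, hr0⟩ := large_order_S (x0 + 1 + m)
  refine ⟨x0 + 1 + r0, fun r K hr hC p i j hi hj him hjK => ?_⟩
  obtain ⟨a, rfl⟩ : ∃ a, r = a + 1 := ⟨r - 1, by omega⟩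
  -- columns beyond the window vanish
  by_cases hcol : ∃ t, K + m < j t
  · obtain ⟨t, ht⟩ := hcol
    rw [minor_nonneg_iff, mnr_col_eq_zero t]
    intro s
    unfold SR
    rw [S_low a (i s) (j t) (by have := him s; omega)]
    norm_num
  · -- rows above the window vanish
    by_cases hrow : ∃ s, i s < K
    · obtain ⟨s, hs⟩ := hrow
      rw [minor_nonneg_iff, mnr_row_eq_zero s]
      intro t
      unfold SR
      rw [S_low a (i s) (j t) (by have := hjK t; omega)]
      norm_num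
    · have hcol' : ∀ t, j t ≤ K + m := fun t => by
        by_contra hcon
        exact hcol ⟨t, by omega⟩
      have hrow' : ∀ s, K ≤ i s := fun s => by
        by_contra hcon
        exact hrow ⟨s, by omega⟩
      by_cases hK : K ≤ x0
      · exact hr0 (a + 1) (by omega) (by omega) p i j hi hj
          (fun s => by have := hcol' s; omega)
      · have hw := hx0 a (K - 1) (by omega) p (fun s => i s - K) (fun s => j s - K)
          (by
            intro s t hst
            have h1 := hi hst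
            have h2 := hrow' s
            simp only
            omega)
          (by
            intro s t hst
            have h1 := hj hst
            have h2 := hjK s
            simp only
            omega)
          (fun s => by have := hcol' s; omega) (fun s => by have := him s; omega)
        rw [minor_nonneg_iff]
        refine le_of_le_of_eq hw ?_
        apply mnr_congr
        intro s t
        unfold Mw SR
        have h1 := hrow' s
        have h2 := hjK t
        have h3 := S_eq_M a (K - 1 + (i s - K)) (K - 1 + (j t - K))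
        have e1 : K - 1 + (i s - K) + 1 = i s := by omega
        have e2 : K - 1 + (j t - K) + 1 = j t := by omega
        rw [e1, e2] at h3
        exact h3.symm

end B0105e
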