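import Pool.Agent.Lib.MP_b0105e_co_h74.Two

/-!
The minors with at most two columns of index at least two.
-/

namespace B0105e

open Matrix Finset

/-- the block lemma with a bound for all columns but the last two -/
lemma block_two {f : ℕ → ℕ → ℝ} {m : ℕ} (h00 : 0 ≤ f 0 0) (hrow : ∀ k, f 0 (k + 1) = 0)
    (hcol : ∀ n, f (n + 1) 0 = 0)
    (h : ∀ (p : ℕ) (r c : Fin p → ℕ), StrictMono r → StrictMono c →
      (∀ i : Fin p, (i : ℕ) + 3 ≤ p → c i < m) →
      0 ≤ mnr (fun n k => f (n + 1) (k + 1)) r c)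
    (p : ℕ) (r c : Fin p → ℕ) (hr : StrictMono r) (hc : StrictMono c)
    (hm : ∀ i : Fin p, (i : ℕ) + 3 ≤ p → c i < m + 1) :
    0 ≤ mnr f r c := by
  have shift : ∀ (q : ℕ) (r c : Fin q → ℕ), StrictMono r → StrictMono c → (∀ i, 1 ≤ r i) →
      (∀ i, 1 ≤ c i) → (∀ i : Fin q, (i : ℕ) + 3 ≤ q → c i < m + 1) → 0 ≤ mnr f r c := by
    intro q r c hr hc h1 h2 hm
    have hh := h q (fun i => r i - 1) (fun i => c i - 1) (strictMono_pred hr h1)
      (strictMono_pred hc h2) (fun i hi => by have := hm i hi; have := h2 i; omega)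
    have e : mnr (fun n k => f (n + 1) (k + 1)) (fun i => r i - 1) (fun i => c i - 1)
        = mnr f r c := by
      apply mnr_congr
      intro i j
      have a1 : r i - 1 + 1 = r i := by have := h1 i; omega
      have a2 : c j - 1 + 1 = c j := by have := h2 j; omega
      simp only [a1, a2]
    rw [e] at hh
    exact hh
  cases p with
  | zero => rw [mnr_zero]; exact zero_le_one
  | succ p =>
    by_cases hr0 : r 0 = 0
    · by_cases hc0 : c 0 = 0
      · rw [mnr_col_zero]
        · apply mul_nonneg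
          · rw [hr0, hc0]; exact h00
          · apply shift
            · intro i j hij; exact hr (Fin.succ_lt_succ_iff.mpr hij)
            · intro i j hij; exact hc (Fin.succ_lt_succ_iff.mpr hij)
            · exact one_le_succ hr
            · exact one_le_succ hc
            · intro i hi
              apply hm
              rw [Fin.val_succ]
              omega
        · intro i
          have h1 := one_le_succ hr i
          obtain ⟨n, hn⟩ : ∃ n, r i.succ = n + 1 := ⟨r i.succ - 1, by omega⟩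
          rw [hn, hc0]
          exact hcol n
      · rw [mnr_row_eq_zero 0]
        intro j
        have h1 := one_le_of_ne hc hc0 j
        obtain ⟨n, hn⟩ : ∃ n, c j = n + 1 := ⟨c j - 1, by omega⟩
        rw [hr0, hn]
        exact hrow n
    · by_cases hc0 : c 0 = 0
      · rw [mnr_col_eq_zero 0]
        intro i
        have h1 := one_le_of_ne hr hr0 i
        obtain ⟨n, hn⟩ : ∃ n, r i = n + 1 := ⟨r i - 1, by omega⟩
        rw [hn, hc0]
        exact hcol n
      · exact shift _ r c hr hc (one_le_of_ne hr hr0) (one_le_of_ne hc hc0) hm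

/-- the differences of consecutive rows -/
noncomputable def Df (a n k : ℕ) : ℝ := (S (a + 1) (n + 1) (k + 1) : ℝ) - S (a + 1) n (k + 1)

lemma Df_eq (a n k : ℕ) : Df a n k =
    ((n + a * (k + 1)).factorial : ℝ) * ((k.factorial : ℝ)⁻¹ *
      ((a.factorial : ℝ)⁻¹ * cc a n k + ((k : ℝ) / ((k : ℝ) + 1)) * cc a n (k + 1))) := by
  unfold Df
  have e1 : n + 1 + (a + 1 - 1) * (k + 1) - 1 = n + a * (k + 1) := by
    have : a + 1 - 1 = a := by omega
    rw [this]
    omega
  have e2 : a + 1 - 1 = a := by omega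
  simp only [S]
  rw [e1, e2]
  push_cast
  rw [S_eq_cc a n k, S_eq_cc a n (k + 1)]
  have hch : ((n + a * (k + 1)).choose a : ℝ) * (a.factorial : ℝ) *
      ((n + a * k).factorial : ℝ) = ((n + a * (k + 1)).factorial : ℝ) := by
    have h := Nat.choose_mul_factorial_mul_factorial (n := n + a * (k + 1)) (k := a) (by nlinarith)
    have e : n + a * (k + 1) - a = n + a * k := by
      have : a * (k + 1) = a * k + a := by ring
      omega
    rw [e] at h
    exact_mod_cast h
  have hk : ((k + 1).factorial : ℝ) = ((k : ℝ) + 1) * (k.factorial : ℝ) := by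
    rw [Nat.factorial_succ]
    push_cast
    ring
  have ha : (a.factorial : ℝ) ≠ 0 := by positivity
  have hk0 : (k.factorial : ℝ) ≠ 0 := by positivity
  have hk1 : (k : ℝ) + 1 ≠ 0 := by positivity
  rw [hk, ← hch]
  field_simp
  ring

lemma Df_two (a n m k l : ℕ) (hnm : n ≤ m) (hkl : k ≤ l) :
    Df a n l * Df a m k ≤ Df a n k * Df a m l := by
  rcases Nat.eq_or_lt_of_le hkl with rfl | hlt
  · exact le_rfl
  rw [Df_eq, Df_eq, Df_eq, Df_eq]
  have cn := fun k n => cc_nonneg a k n
  -- the inequality for the second factors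
  have t1 : cc a m k * cc a n l ≤ cc a n k * cc a m l := by
    obtain ⟨q, rfl⟩ : ∃ q, l = q + k := ⟨l - k, by omega⟩
    exact cc_two a q k n m hnm
  have t2 : cc a m k * cc a n (l + 1) ≤ cc a n k * cc a m (l + 1) := by
    obtain ⟨q, hq⟩ : ∃ q, l + 1 = q + k := ⟨l + 1 - k, by omega⟩
    rw [hq]
    exact cc_two a q k n m hnm
  have t3 : cc a m (k + 1) * cc a n l ≤ cc a n (k + 1) * cc a m l := by
    obtain ⟨q, rfl⟩ : ∃ q, l = q + (k + 1) := ⟨l - (k + 1), by omega⟩
    exact cc_two a q (k + 1) n m hnm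
  have t4 : cc a m (k + 1) * cc a n (l + 1) ≤ cc a n (k + 1) * cc a m (l + 1) := by
    obtain ⟨q, hq⟩ : ∃ q, l + 1 = q + (k + 1) := ⟨l - k, by omega⟩
    rw [hq]
    exact cc_two a q (k + 1) n m hnm
  set A := (a.factorial : ℝ)⁻¹ with hA
  set bk := (k : ℝ) / ((k : ℝ) + 1) with hbk
  set bl := (l : ℝ) / ((l : ℝ) + 1) with hbl
  have hA0 : 0 ≤ A := by positivity
  have hk0 : 0 ≤ bk := by positivity
  have hl0 : 0 ≤ bl := by positivity
  have key : (A * cc a n l + bl * cc a n (l + 1)) * (A * cc a m k + bk * cc a m (k + 1)) ≤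
      (A * cc a n k + bk * cc a n (k + 1)) * (A * cc a m l + bl * cc a m (l + 1)) := by
    have u1 := mul_le_mul_of_nonneg_left t1 (mul_nonneg hA0 hA0)
    have u2 := mul_le_mul_of_nonneg_left t2 (mul_nonneg hA0 hl0)
    have u3 := mul_le_mul_of_nonneg_left t3 (mul_nonneg hA0 hk0)
    have u4 := mul_le_mul_of_nonneg_left t4 (mul_nonneg hk0 hl0)
    nlinarith [u1, u2, u3, u4]
  have hf : ((n + a * (l + 1)).factorial : ℝ) * ((m + a * (k + 1)).factorial : ℝ) ≤
      ((n + a * (k + 1)).factorial : ℝ) * ((m + a * (l + 1)).factorial : ℝ) := by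
    have h2 := fac_super (n + a * (k + 1)) (m - n) (a * (l - k))
    have e0 : a * (k + 1) + a * (l - k) = a * (l + 1) := by
      rw [← mul_add]
      congr 1
      omega
    have e1 : n + a * (k + 1) + a * (l - k) = n + a * (l + 1) := by omega
    have e2 : n + a * (k + 1) + (m - n) = m + a * (k + 1) := by omega
    have e3 : n + a * (l + 1) + (m - n) = m + a * (l + 1) := by omega
    rw [e1, e2, e3] at h2
    exact_mod_cast h2
  have n1 : 0 ≤ (A * cc a n l + bl * cc a n (l + 1)) * (A * cc a m k + bk * cc a m (k + 1)) :=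
    mul_nonneg (add_nonneg (mul_nonneg hA0 (cn _ _)) (mul_nonneg hl0 (cn _ _)))
      (add_nonneg (mul_nonneg hA0 (cn _ _)) (mul_nonneg hk0 (cn _ _)))
  have h4 := mul_le_mul hf key n1 (by positivity)
  have h5 : (0 : ℝ) ≤ (k.factorial : ℝ)⁻¹ * (l.factorial : ℝ)⁻¹ := by positivity
  have h6 := mul_le_mul_of_nonneg_left h4 h5
  calc _ = (k.factorial : ℝ)⁻¹ * (l.factorial : ℝ)⁻¹ *
        (((n + a * (l + 1)).factorial : ℝ) * ((m + a * (k + 1)).factorial : ℝ) *
        ((A * cc a n l + bl * cc a n (l + 1)) * (A * cc a m k + bk * cc a m (k + 1)))) := by ring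
    _ ≤ _ := h6
    _ = _ := by ring

/-- minors of size at most two of the shifted differences -/
lemma Df_minors (a : ℕ) (p : ℕ) (r c : Fin p → ℕ) (hr : StrictMono r) (hc : StrictMono c)
    (hp : ∀ i : Fin p, (i : ℕ) + 3 ≤ p → c i < 0) :
    0 ≤ mnr (fun n k => Df a (n + 1) (k + 1)) r c := by
  rcases p with _ | _ | _ | p
  · rw [mnr_zero]; exact zero_le_one
  · unfold mnr
    rw [Matrix.det_fin_one]
    simp only [Matrix.of_apply]
    rw [Df_eq]
    have h1 := cc_nonneg a (c 0 + 1) (r 0 + 1)
    have h2 := cc_nonneg a (c 0 + 1 + 1) (r 0 + 1)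
    positivity
  · unfold mnr
    rw [Matrix.det_fin_two]
    simp only [Matrix.of_apply]
    have h01 : (0 : Fin 2) < 1 := by decide
    have h := Df_two a (r 0 + 1) (r 1 + 1) (c 0 + 1) (c 1 + 1)
      (by have := hr h01; omega) (by have := hc h01; omega)
    linarith
  · exact absurd (hp 0 (by simp)) (by omega)

/-- the triangle without row `0` and column `0`: minors with at most two columns of positive
index -/
lemma SS_minors (a : ℕ) (p : ℕ) (r c : Fin p → ℕ) (hr : StrictMono r) (hc : StrictMono c)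
    (hp : ∀ i : Fin p, (i : ℕ) + 3 ≤ p → c i < 1) :
    0 ≤ mnr (fun n k => SR (a + 1) (n + 1) (k + 1)) r c := by
  set f : ℕ → ℕ → ℝ := fun n k => SR (a + 1) (n + 1) (k + 1) with hf
  have hone : ∀ n, f n 0 = 1 := by
    intro n
    have h1 := S_eq_M a n 0
    rw [M_zero] at h1
    simp only [hf, SR]
    exact h1
  have hnev : ∀ n k, nev f (n + 1) k = Df a (n + 1) k := by
    intro n k
    change f (n + 1) k - f (n + 1) 0 / f n 0 * f n k = _
    rw [hone, hone]
    simp only [hf, SR, Df]
    ring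
  have hne : ∀ n, f n 0 ≠ 0 := fun n => by rw [hone]; exact one_ne_zero
  have hg : ∀ (p : ℕ) (r c : Fin p → ℕ), StrictMono r → StrictMono c →
      (∀ i : Fin p, (i : ℕ) + 3 ≤ p → c i < 0 + 1) → 0 ≤ mnr (nev f) r c := by
    apply block_two
    · simp only [nev, hone]
      exact zero_le_one
    · intro k
      simp only [nev, hf, SR]
      rw [S_low a (0 + 1) (k + 1 + 1) (by omega)]
      norm_num
    · exact nev_col f hne
    · intro p r c hr hc hp
      have h := Df_minors a p r c hr hc hp
      refine le_of_le_of_eq h ?_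
      apply mnr_congr
      intro i j
      exact (hnev _ _).symm
  refine le_trans (hg p r c hr hc hp) ?_
  apply mnr_rowop' (fun n => f (n + 1) 0 / f n 0)
  · intro n
    rw [hone, hone]
    norm_num
  · intro k; rfl
  · intro n k
    simp only [nev]
    ring
  · intro r hr
    exact hg p r c hr hc hp
  · exact hr

/-- all minors with at most two columns of index at least two are nonnegative -/
theorem few_columns (r : ℕ) (hr : 1 ≤ r) (p : ℕ) (i j : Fin p → ℕ) (hi : StrictMono i)
    (hj : StrictMono j) (hp : ∀ s : Fin p, (s : ℕ) + 3 ≤ p → j s ≤ 1) : 0 ≤ minor r i j := by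
  obtain ⟨a, rfl⟩ : ∃ a, r = a + 1 := ⟨r - 1, by omega⟩
  rw [minor_nonneg_iff]
  refine block_two (f := SR (a + 1)) (m := 1) ?_ ?_ ?_ ?_ p i j hi hj
    (fun s hs => by have := hp s hs; omega)
  · unfold SR
    exact Nat.cast_nonneg _
  · intro k
    have : S (a + 1) 0 (k + 1) = 0 := rfl
    unfold SR
    rw [this]
    norm_num
  · intro n
    have : S (a + 1) (n + 1) 0 = 0 := rfl
    unfold SR
    rw [this]
    norm_num
  · intro p r c hr hc hm
    exact SS_minors a p r c hr hc hm

end B0105e
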