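import Pool.Agent.Lib.MP_b0105e_co_h74.Limit

/-!
The minors of size two: the triangle of every order is totally positive of order two.
-/

namespace B0105e

open Matrix Finset PowerSeries

lemma fac_super (P e : ℕ) : ∀ d : ℕ,
    (P + d).factorial * (P + e).factorial ≤ P.factorial * (P + d + e).factorial := by
  intro d
  induction d with
  | zero => simp
  | succ d ih =>
    have e1 : P + (d + 1) = P + d + 1 := by ring
    have e2 : P + d + 1 + e = P + d + e + 1 := by ring
    rw [e1, e2, Nat.factorial_succ, Nat.factorial_succ]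
    calc (P + d + 1) * (P + d).factorial * (P + e).factorial
        = (P + d + 1) * ((P + d).factorial * (P + e).factorial) := by ring
      _ ≤ (P + d + e + 1) * (P.factorial * (P + d + e).factorial) :=
          Nat.mul_le_mul (by omega) ih
      _ = P.factorial * ((P + d + e + 1) * (P + d + e).factorial) := by ring

/-- the coefficients of the series `phi` -/
noncomputable def bb (a n : ℕ) : ℝ := if n = 0 then 0 else ((n + a).factorial : ℝ)⁻¹

lemma bb_nonneg (a n : ℕ) : 0 ≤ bb a n := by
  unfold bb
  split_ifs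
  · exact le_rfl
  · positivity

/-- the series with coefficients `1 / (n + a)!` for `n ≥ 1` -/
noncomputable def phi (a : ℕ) : PowerSeries ℝ := PowerSeries.mk (bb a)

/-- the coefficients of the powers of `phi` -/
noncomputable def cc (a n k : ℕ) : ℝ := PowerSeries.coeff n (phi a ^ k)

lemma phi_ode (a : ℕ) : (X : PowerSeries ℝ) * (d⁄dX ℝ) (phi a) =
    X * phi a + PowerSeries.C ((a.factorial : ℝ)⁻¹) * X - PowerSeries.C (a : ℝ) * phi a := by
  ext n
  cases n with
  | zero => simp [phi, bb]
  | succ n =>
    rw [PowerSeries.coeff_succ_X_mul, map_sub, map_add, PowerSeries.coeff_succ_X_mul,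
      PowerSeries.coeff_C_mul, PowerSeries.coeff_C_mul, PowerSeries.coeff_derivative]
    simp only [phi, PowerSeries.coeff_mk, PowerSeries.coeff_X]
    cases n with
    | zero =>
      simp only [bb]
      have h : ((0 + 1 + a).factorial : ℝ) = ((a : ℝ) + 1) * (a.factorial : ℝ) := by
        have : 0 + 1 + a = a + 1 := by ring
        rw [this, Nat.factorial_succ]
        push_cast
        ring
      simp only [if_true]
      rw [h]
      have h1 : (a.factorial : ℝ) ≠ 0 := by positivity
      have h2 : (a : ℝ) + 1 ≠ 0 := by positivity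
      simp
      field_simp
      ring
    | succ n =>
      have h0 : ¬ (n + 1 + 1 = 1) := by omega
      simp only [bb, h0, if_false]
      have h : ((n + 1 + 1 + a).factorial : ℝ) = ((n : ℝ) + 2 + a) * ((n + 1 + a).factorial : ℝ) := by
        have : n + 1 + 1 + a = (n + 1 + a) + 1 := by ring
        rw [this, Nat.factorial_succ]
        push_cast
        ring
      have h1 : ((n + 1 + a).factorial : ℝ) ≠ 0 := by positivity
      have h2 : (n : ℝ) + 2 + a ≠ 0 := by positivity
      simp only [Nat.add_eq_zero_iff, one_ne_zero, and_false, if_false, mul_zero, add_zero]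
      rw [h]
      push_cast
      field_simp
      ring

lemma cc_rec (a n k : ℕ) : ((n : ℝ) + 1 + a * (k + 1)) * cc a (n + 1) (k + 1) =
    ((k : ℝ) + 1) * (cc a n (k + 1) + (a.factorial : ℝ)⁻¹ * cc a n k) := by
  have h1 : (X : PowerSeries ℝ) * (d⁄dX ℝ) (phi a ^ (k + 1)) =
      (((k + 1 : ℕ) : PowerSeries ℝ)) * (X * phi a ^ (k + 1) +
        PowerSeries.C ((a.factorial : ℝ)⁻¹) * (X * phi a ^ k) -
        PowerSeries.C (a : ℝ) * phi a ^ (k + 1)) := by
    rw [Derivation.leibniz_pow]
    simp only [Nat.add_sub_cancel, smul_eq_mul, nsmul_eq_mul]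
    calc X * (((k + 1 : ℕ) : PowerSeries ℝ) * (phi a ^ k * (d⁄dX ℝ) (phi a)))
        = ((k + 1 : ℕ) : PowerSeries ℝ) * (phi a ^ k * (X * (d⁄dX ℝ) (phi a))) := by ring
      _ = _ := by rw [phi_ode]; ring
  have h2 := congrArg (PowerSeries.coeff (n + 1)) h1
  rw [PowerSeries.coeff_succ_X_mul, PowerSeries.coeff_derivative] at h2
  have h3 : (((k + 1 : ℕ) : PowerSeries ℝ)) = PowerSeries.C (((k + 1 : ℕ) : ℝ)) := by
    simp
  rw [h3, PowerSeries.coeff_C_mul, map_sub, map_add, PowerSeries.coeff_succ_X_mul,
    PowerSeries.coeff_C_mul, PowerSeries.coeff_C_mul, PowerSeries.coeff_succ_X_mul] at h2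
  unfold cc
  push_cast at h2
  linarith

lemma cc_zero (a k : ℕ) : cc a 0 (k + 1) = 0 := by
  unfold cc
  rw [PowerSeries.coeff_zero_eq_constantCoeff, map_pow]
  have : PowerSeries.constantCoeff (phi a) = 0 := by
    rw [← PowerSeries.coeff_zero_eq_constantCoeff_apply]
    simp [phi, bb]
  rw [this]
  simp

lemma S_eq_cc (a : ℕ) : ∀ n k : ℕ, (S (a + 1) n k : ℝ) =
    ((n + a * k).factorial : ℝ) / (k.factorial : ℝ) * cc a n k := by
  intro n
  induction n with
  | zero =>
    intro k
    cases k with
    | zero => simp [S, cc]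
    | succ k =>
      rw [cc_zero]
      simp [S]
  | succ n ih =>
    intro k
    cases k with
    | zero =>
      have : cc a (n + 1) 0 = 0 := by
        unfold cc
        rw [pow_zero, PowerSeries.coeff_one]
        simp
      rw [this]
      simp [S]
    | succ k =>
      have e1 : n + 1 + (a + 1 - 1) * (k + 1) - 1 = n + a * (k + 1) := by
        have : a + 1 - 1 = a := by omega
        rw [this]
        omega
      have e2 : a + 1 - 1 = a := by omega
      simp only [S]
      rw [e1, e2]
      push_cast
      rw [ih k, ih (k + 1)]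
      have hr := cc_rec a n k
      have hch : ((n + a * (k + 1)).choose a : ℝ) * (a.factorial : ℝ) *
          ((n + a * k).factorial : ℝ) = ((n + a * (k + 1)).factorial : ℝ) := by
        have h := Nat.choose_mul_factorial_mul_factorial (n := n + a * (k + 1)) (k := a) (by nlinarith)
        have e : n + a * (k + 1) - a = n + a * k := by
          have : a * (k + 1) = a * k + a := by ring
          omega
        rw [e] at h
        exact_mod_cast h
      have hf : ((n + 1 + a * (k + 1)).factorial : ℝ) =
          ((n : ℝ) + 1 + a * (k + 1)) * ((n + a * (k + 1)).factorial : ℝ) := by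
        have : n + 1 + a * (k + 1) = (n + a * (k + 1)) + 1 := by ring
        rw [this, Nat.factorial_succ]
        push_cast
        ring
      have hk : ((k + 1).factorial : ℝ) = ((k : ℝ) + 1) * (k.factorial : ℝ) := by
        rw [Nat.factorial_succ]
        push_cast
        ring
      have ha : (a.factorial : ℝ) ≠ 0 := by positivity
      have hk0 : (k.factorial : ℝ) ≠ 0 := by positivity
      have hk1 : (k : ℝ) + 1 ≠ 0 := by positivity
      rw [hf, hk]
      have h5 : ((n : ℝ) + 1 + a * (k + 1)) * ((n + a * (k + 1)).factorial : ℝ) /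
          (((k : ℝ) + 1) * (k.factorial : ℝ)) * cc a (n + 1) (k + 1) =
          ((n + a * (k + 1)).factorial : ℝ) / (((k : ℝ) + 1) * (k.factorial : ℝ)) *
          (((n : ℝ) + 1 + a * (k + 1)) * cc a (n + 1) (k + 1)) := by ring
      rw [h5, hr, ← hch]
      field_simp
      ring

/-! ### two columns -/

/-- the pair of columns `u`, `v` has nonnegative minors of size two -/
def Le2 (u v : ℕ → ℝ) : Prop := ∀ i j : ℕ, i ≤ j → u j * v i ≤ u i * v j

/-- the Toeplitz kernel of `phi` -/
noncomputable def Bk (a n i : ℕ) : ℝ := if i < n then ((n - i + a).factorial : ℝ)⁻¹ else 0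

lemma Bk_nonneg (a n i : ℕ) : 0 ≤ Bk a n i := by
  unfold Bk
  split_ifs
  · positivity
  · exact le_rfl

lemma Bk_two (a n m i j : ℕ) (hnm : n ≤ m) (hij : i ≤ j) :
    Bk a n j * Bk a m i ≤ Bk a n i * Bk a m j := by
  by_cases hj : j < n
  · have h1 : i < n := by omega
    have h2 : j < m := by omega
    have h3 : i < m := by omega
    simp only [Bk, hj, h1, h2, h3, if_true]
    rw [← mul_inv, ← mul_inv]
    apply inv_anti₀ (by positivity)
    have h := fac_super (n - j + a) (m - n) (j - i)
    have e1 : n - j + a + (j - i) = n - i + a := by omega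
    have e2 : n - j + a + (m - n) = m - j + a := by omega
    have e3 : n - i + a + (m - n) = m - i + a := by omega
    rw [e1, e2, e3] at h
    exact_mod_cast h
  · have : Bk a n j = 0 := by simp [Bk, hj]
    rw [this, zero_mul]
    exact mul_nonneg (Bk_nonneg _ _ _) (Bk_nonneg _ _ _)

lemma coeff_phi_mul (a : ℕ) (U : PowerSeries ℝ) (n L : ℕ) (hL : n ≤ L) :
    PowerSeries.coeff n (U * phi a) =
      ∑ i ∈ Finset.range (L + 1), Bk a n i * PowerSeries.coeff i U := by
  have hsub : ∑ i ∈ Finset.range (n + 1), Bk a n i * PowerSeries.coeff i U =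
      ∑ i ∈ Finset.range (L + 1), Bk a n i * PowerSeries.coeff i U := by
    apply Finset.sum_subset
    · intro x hx
      have := Finset.mem_range.mp hx
      exact Finset.mem_range.mpr (by omega)
    · intro x _ hx
      have h0 : ¬ x < n := by
        intro h
        exact hx (Finset.mem_range.mpr (by omega))
      simp [Bk, h0]
  rw [← hsub, PowerSeries.coeff_mul, Finset.Nat.sum_antidiagonal_eq_sum_range_succ
    (fun i j => PowerSeries.coeff i U * PowerSeries.coeff j (phi a)) n]
  apply Finset.sum_congr rfl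
  intro i hi
  have hi' : i ≤ n := by
    have := Finset.mem_range.mp hi
    omega
  rw [mul_comm]
  congr 1
  simp only [phi, PowerSeries.coeff_mk, bb, Bk]
  by_cases h : i < n
  · have h1 : ¬ (n - i = 0) := by omega
    simp only [h, h1, if_true, if_false]
  · have h1 : n - i = 0 := by omega
    simp only [h, h1, if_true, if_false]

lemma Le2_mul (a : ℕ) (U V : PowerSeries ℝ)
    (h : Le2 (fun i => PowerSeries.coeff i U) (fun i => PowerSeries.coeff i V)) :
    Le2 (fun i => PowerSeries.coeff i (U * phi a)) (fun i => PowerSeries.coeff i (V * phi a)) := by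
  intro n m hnm
  simp only
  rw [coeff_phi_mul a U m m le_rfl, coeff_phi_mul a V n m hnm, coeff_phi_mul a U n m hnm,
    coeff_phi_mul a V m m le_rfl]
  set R := Finset.range (m + 1) with hR
  set u := fun i => PowerSeries.coeff i U with hu
  set v := fun i => PowerSeries.coeff i V with hv
  have e1 : (∑ i ∈ R, Bk a n i * u i) * (∑ j ∈ R, Bk a m j * v j) =
      ∑ i ∈ R, ∑ j ∈ R, (Bk a n i * Bk a m j) * (u i * v j) := by
    rw [Finset.sum_mul_sum]
    apply Finset.sum_congr rfl
    intro i _
    apply Finset.sum_congr rfl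
    intro j _
    ring
  have e2 : (∑ i ∈ R, Bk a m i * u i) * (∑ j ∈ R, Bk a n j * v j) =
      ∑ i ∈ R, ∑ j ∈ R, (Bk a n i * Bk a m j) * (u j * v i) := by
    rw [Finset.sum_mul_sum, Finset.sum_comm]
    apply Finset.sum_congr rfl
    intro i _
    apply Finset.sum_congr rfl
    intro j _
    ring
  have e3 : (∑ i ∈ R, ∑ j ∈ R, (Bk a n i * Bk a m j) * (u i * v j - u j * v i)) =
      ∑ i ∈ R, ∑ j ∈ R, (Bk a n j * Bk a m i) * (u j * v i - u i * v j) := by
    rw [Finset.sum_comm]
  have e4 : 0 ≤ ∑ i ∈ R, ∑ j ∈ R,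
      ((Bk a n i * Bk a m j - Bk a n j * Bk a m i) * (u i * v j - u j * v i)) := by
    apply Finset.sum_nonneg
    intro i _
    apply Finset.sum_nonneg
    intro j _
    rcases le_total i j with hij | hij
    · have h1 := Bk_two a n m i j hnm hij
      have h2 := h i j hij
      apply mul_nonneg
      · linarith
      · linarith
    · have h1 := Bk_two a n m j i hnm hij
      have h2 := h j i hij
      apply mul_nonneg_of_nonpos_of_nonpos
      · linarith
      · linarith
  have e5 : ∑ i ∈ R, ∑ j ∈ R,
      ((Bk a n i * Bk a m j - Bk a n j * Bk a m i) * (u i * v j - u j * v i)) =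
      (∑ i ∈ R, ∑ j ∈ R, (Bk a n i * Bk a m j) * (u i * v j - u j * v i)) +
      (∑ i ∈ R, ∑ j ∈ R, (Bk a n j * Bk a m i) * (u j * v i - u i * v j)) := by
    rw [← Finset.sum_add_distrib]
    apply Finset.sum_congr rfl
    intro i _
    rw [← Finset.sum_add_distrib]
    apply Finset.sum_congr rfl
    intro j _
    ring
  have e6 : (∑ i ∈ R, ∑ j ∈ R, (Bk a n i * Bk a m j) * (u i * v j - u j * v i)) =
      (∑ i ∈ R, ∑ j ∈ R, (Bk a n i * Bk a m j) * (u i * v j)) -
      (∑ i ∈ R, ∑ j ∈ R, (Bk a n i * Bk a m j) * (u j * v i)) := by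
    rw [← Finset.sum_sub_distrib]
    apply Finset.sum_congr rfl
    intro i _
    rw [← Finset.sum_sub_distrib]
    apply Finset.sum_congr rfl
    intro j _
    ring
  rw [e1, e2]
  rw [e5, ← e3, e6] at e4
  linarith

lemma cc_nonneg (a : ℕ) : ∀ k n : ℕ, 0 ≤ cc a n k := by
  intro k
  induction k with
  | zero =>
    intro n
    unfold cc
    rw [pow_zero, PowerSeries.coeff_one]
    split_ifs
    · exact zero_le_one
    · exact le_rfl
  | succ k ih =>
    intro n
    unfold cc
    rw [pow_succ, coeff_phi_mul a _ n n le_rfl]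
    apply Finset.sum_nonneg
    intro i _
    exact mul_nonneg (Bk_nonneg _ _ _) (ih i)

lemma cc_two (a l : ℕ) : ∀ k : ℕ, Le2 (fun n => cc a n k) (fun n => cc a n (l + k)) := by
  intro k
  induction k with
  | zero =>
    intro i j hij
    simp only
    by_cases hj : j = 0
    · have : i = 0 := by omega
      rw [hj, this]
    · have : cc a j 0 = 0 := by
        unfold cc
        rw [pow_zero, PowerSeries.coeff_one]
        simp [hj]
      rw [this, zero_mul]
      exact mul_nonneg (cc_nonneg _ _ _) (cc_nonneg _ _ _)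
  | succ k ih =>
    have h := Le2_mul a (phi a ^ k) (phi a ^ (l + k)) ih
    intro i j hij
    have h1 := h i j hij
    simp only at h1 ⊢
    unfold cc
    have e1 : phi a ^ (k + 1) = phi a ^ k * phi a := pow_succ _ _
    have e2 : phi a ^ (l + (k + 1)) = phi a ^ (l + k) * phi a := by
      rw [← add_assoc, pow_succ]
    rw [e1, e2]
    exact h1

theorem S_two (a n m k l : ℕ) (hnm : n ≤ m) (hkl : k ≤ l) :
    (S (a + 1) n l : ℝ) * S (a + 1) m k ≤ (S (a + 1) n k : ℝ) * S (a + 1) m l := by
  obtain ⟨q, rfl⟩ : ∃ q, l = q + k := ⟨l - k, by omega⟩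
  obtain ⟨e, rfl⟩ : ∃ e, m = n + e := ⟨m - n, by omega⟩
  rw [S_eq_cc, S_eq_cc, S_eq_cc, S_eq_cc]
  have h1 := cc_two a q k n (n + e) (by omega)
  simp only at h1
  have h2 := fac_super (n + a * k) e (a * q)
  have e1 : n + a * k + a * q = n + a * (q + k) := by ring
  have e2 : n + a * k + e = n + e + a * k := by ring
  have e3 : n + a * (q + k) + e = n + e + a * (q + k) := by ring
  rw [e1, e2, e3] at h2
  have h3 : ((n + a * (q + k)).factorial : ℝ) * ((n + e + a * k).factorial : ℝ) ≤
      ((n + a * k).factorial : ℝ) * ((n + e + a * (q + k)).factorial : ℝ) := by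
    exact_mod_cast h2
  have c1 := cc_nonneg a (q + k) n
  have c2 := cc_nonneg a k (n + e)
  have h4 : (((n + a * (q + k)).factorial : ℝ) * ((n + e + a * k).factorial : ℝ)) *
      (cc a (n + e) k * cc a n (q + k)) ≤
      (((n + a * k).factorial : ℝ) * ((n + e + a * (q + k)).factorial : ℝ)) *
      (cc a n k * cc a (n + e) (q + k)) := by
    apply mul_le_mul h3 h1 (mul_nonneg c2 c1) (by positivity)
  have h5 : (0 : ℝ) < ((k.factorial : ℝ) * ((q + k).factorial : ℝ))⁻¹ := by positivity
  have h6 := mul_le_mul_of_nonneg_left h4 h5.le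
  have k0 : (k.factorial : ℝ) ≠ 0 := by positivity
  have q0 : ((q + k).factorial : ℝ) ≠ 0 := by positivity
  calc ((n + a * (q + k)).factorial : ℝ) / ((q + k).factorial : ℝ) * cc a n (q + k) *
        (((n + e + a * k).factorial : ℝ) / (k.factorial : ℝ) * cc a (n + e) k)
      = ((k.factorial : ℝ) * ((q + k).factorial : ℝ))⁻¹ *
        ((((n + a * (q + k)).factorial : ℝ) * ((n + e + a * k).factorial : ℝ)) *
        (cc a (n + e) k * cc a n (q + k))) := by
        field_simp
    _ ≤ _ := h6
    _ = _ := by
        field_simp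

/-- all minors of size two of the triangle are nonnegative -/
theorem two_minors (r : ℕ) (hr : 1 ≤ r) (i j : Fin 2 → ℕ) (hi : StrictMono i)
    (hj : StrictMono j) : 0 ≤ minor r i j := by
  obtain ⟨a, rfl⟩ : ∃ a, r = a + 1 := ⟨r - 1, by omega⟩
  rw [minor_nonneg_iff]
  unfold mnr SR
  rw [Matrix.det_fin_two]
  simp only [Matrix.of_apply]
  have h01 : (0 : Fin 2) < 1 := by decide
  have h := S_two a (i 0) (i 1) (j 0) (j 1) (hi h01).le (hj h01).le
  linarith

end B0105e
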