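import Pool.Agent.Lib.MP_b0105e_co_h10.Main

/-!
The first columns of the triangle: one statement for large orders and deep rows.
-/

namespace B0105e

open Matrix Finset

/-- For every `m` there is `C` such that for all orders `r` every minor in the columns `0, ..., m`
whose first row is `n₁` is nonnegative as soon as `C ≤ r + n₁`, and positive as soon as `C ≤ n₁` and
no column is `0`. -/
theorem first_columns (m : ℕ) : ∃ C : ℕ, ∀ r : ℕ, 1 ≤ r →
    ∀ (p : ℕ) (i j : Fin p → ℕ), StrictMono i → StrictMono j → (∀ s, j s ≤ m) →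
      (∀ s, C ≤ r + i s) →
      0 ≤ minor r i j ∧ ((∀ s, C ≤ i s) → (∀ s, 1 ≤ j s) → 0 < minor r i j) := by
  obtain ⟨r0, h1⟩ := large_order_S m
  obtain ⟨n0, h2⟩ := deep_rows_S m
  refine ⟨r0 + n0 + 1, fun r hr p i j hi hj hm hC => ⟨?_, ?_⟩⟩
  · by_cases hr0 : r0 ≤ r
    · exact h1 r hr hr0 p i j hi hj hm
    · have hi' : ∀ s, n0 + 1 ≤ i s := fun s => by
        have := hC s
        omega
      -- a column `0` vanishes in the rows of positive index
      by_cases hj0 : ∃ t, j t = 0
      · obtain ⟨t, ht⟩ := hj0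
        rw [minor_nonneg_iff, mnr_col_eq_zero t]
        intro s
        obtain ⟨n, hn⟩ : ∃ n, i s = n + 1 := ⟨i s - 1, by have := hi' s; omega⟩
        rw [ht, hn]
        have h0 : S r (n + 1) 0 = 0 := rfl
        unfold SR
        rw [h0]
        norm_num
      · have hj1 : ∀ t, 1 ≤ j t := fun t => by
          by_contra hcon
          exact hj0 ⟨t, by omega⟩
        exact (h2 r hr p i j hi hj (fun s => by have := hi' s; omega)
          (fun s => ⟨hj1 s, hm s⟩)).le
  · intro hi' hj1
    exact h2 r hr p i j hi hj (fun s => by have := hi' s; omega) (fun s => ⟨hj1 s, hm s⟩)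

end B0105e
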